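import Mathlib
import Pool.Agent.Lib.MP_9ac97d_al.UMain

/-!
A growth constant depending only on the rank, for two-generator subgroups of exponential growth
of the outer automorphism group of a free group.
-/

set_option autoImplicit false

namespace Pool.Agent.Results.MP_9ac97d_al.UniformConst

/-- For all `n` there is `c > 1` such that for every set `T` of at most two elements of
`Out(F_n)` generating a subgroup of exponential growth, and every finite generating set `S` of
that subgroup, the ball of radius `k` of the word metric of `S` has at least `c ^ k` elements. -/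
theorem result :
    ∀ n : ℕ, ∃ c : ℝ, 1 < c ∧
      ∀ T : Finset (MulAut (FreeGroup (Fin n)) ⧸
        Subgroup.normalClosure
          (Set.range (MulAut.conj : FreeGroup (Fin n) →* MulAut (FreeGroup (Fin n))))),
      T.card ≤ 2 →
      (∃ b : ℝ, 1 < b ∧ ∀ k : ℕ,
        b ^ k ≤ ((Set.ncard
          {g : MulAut (FreeGroup (Fin n)) ⧸
              Subgroup.normalClosure
                (Set.range (MulAut.conj : FreeGroup (Fin n) →* MulAut (FreeGroup (Fin n)))) |
            ∃ l : List (MulAut (FreeGroup (Fin n)) ⧸
                Subgroup.normalClosure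
                  (Set.range (MulAut.conj : FreeGroup (Fin n) →* MulAut (FreeGroup (Fin n))))),
              l.length ≤ k ∧ (∀ x ∈ l, x ∈ T ∨ x⁻¹ ∈ T) ∧ l.prod = g} : ℕ) : ℝ)) →
      ∀ S : Set (MulAut (FreeGroup (Fin n)) ⧸
          Subgroup.normalClosure
            (Set.range (MulAut.conj : FreeGroup (Fin n) →* MulAut (FreeGroup (Fin n))))),
        S.Finite →
        Subgroup.closure S = Subgroup.closure (T : Set (MulAut (FreeGroup (Fin n)) ⧸
          Subgroup.normalClosure
            (Set.range (MulAut.conj : FreeGroup (Fin n) →* MulAut (FreeGroup (Fin n)))))) →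
        ∀ k : ℕ,
          c ^ k ≤ ((Set.ncard
            {g : MulAut (FreeGroup (Fin n)) ⧸
                Subgroup.normalClosure
                  (Set.range (MulAut.conj : FreeGroup (Fin n) →* MulAut (FreeGroup (Fin n)))) |
              ∃ l : List (MulAut (FreeGroup (Fin n)) ⧸
                  Subgroup.normalClosure
                    (Set.range (MulAut.conj : FreeGroup (Fin n) →* MulAut (FreeGroup (Fin n))))),
                l.length ≤ k ∧ (∀ x ∈ l, x ∈ S ∨ x⁻¹ ∈ S) ∧ l.prod = g} : ℕ) : ℝ) :=
  fun n => Pool.Agent.Lib.MP_9ac97d_al.uegU n 2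

end Pool.Agent.Results.MP_9ac97d_al.UniformConst
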